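import Mathlib

namespace Pool.Agent.H.MP_ca83f8_co
open Finset

def tb : List (Fin 9 × Fin 9) := [(0,1),(0,2),(1,2),(3,4),(3,5),(4,5),(6,7),(6,8),(7,8)]

def FF : Finset (Finset (Fin 9)) := (tb.map fun t => ({t.1, t.2} : Finset (Fin 9))).toFinset

lemma tb_ok : ∀ t ∈ tb, t.1 ≠ t.2 := by decide +kernel

lemma mem_FF {e : Finset (Fin 9)} : e ∈ FF ↔ ∃ t ∈ tb, e = {t.1, t.2} := by
  simp only [FF, List.mem_toFinset, List.mem_map]
  exact ⟨fun ⟨t, h, e⟩ => ⟨t, h, e.symm⟩, fun ⟨t, h, e⟩ => ⟨t, h, e.symm⟩⟩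

lemma FF_card : ∀ e ∈ FF, e.card = 2 := by
  intro e he
  obtain ⟨t, ht, rfl⟩ := mem_FF.1 he
  exact card_pair (tb_ok t ht)

lemma FF_lin : ∀ e ∈ FF, ∀ e' ∈ FF, e ≠ e' → (e ∩ e').card ≤ 1 := by
  intro e he e' he' hne
  by_contra hc
  have a := eq_of_subset_of_card_le (inter_subset_left (s₁ := e) (s₂ := e'))
    (by rw [FF_card e he]; omega)
  have b := eq_of_subset_of_card_le (inter_subset_right (s₁ := e) (s₂ := e'))
    (by rw [FF_card e' he']; omega)
  exact hne (a.symm.trans b)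

lemma mantel (n : ℕ) (H : Finset (Finset (Fin n))) (h2 : ∀ e ∈ H, e.card = 2)
    (ht : ∀ a b c : Fin n, ({a, b} : Finset (Fin n)) ∈ H → ({a, c} : Finset (Fin n)) ∈ H →
      ({b, c} : Finset (Fin n)) ∉ H) : 4 * H.card ≤ n ^ 2 := by
  classical
  rcases Nat.eq_zero_or_pos n with rfl | hn
  · have : H = ∅ := eq_empty_of_forall_notMem fun e he => by
      have := h2 e he
      have := card_le_univ e
      simp only [Fintype.card_fin] at this
      omega
    simp [this]
  let N : Fin n → Finset (Fin n) := fun u => univ.filter fun w => ({u, w} : Finset (Fin n)) ∈ H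
  obtain ⟨v, -, hv⟩ := exists_max_image (univ : Finset (Fin n)) (fun u => (N u).card)
    ⟨⟨0, hn⟩, mem_univ _⟩
  have sub : H ⊆ (univ \ N v).biUnion fun u => (N u).image fun w => ({u, w} : Finset (Fin n)) := by
    intro e he
    obtain ⟨a, b, hab, rfl⟩ := card_eq_two.1 (h2 e he)
    by_cases ha : a ∈ N v
    · have hb : b ∉ N v := fun hb => ht v a b (by simpa [N] using ha) (by simpa [N] using hb) he
      refine mem_biUnion.2 ⟨b, by simpa using hb, mem_image.2 ⟨a, ?_, pair_comm _ _⟩⟩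
      simpa [N, pair_comm b a] using he
    · exact mem_biUnion.2 ⟨a, by simpa using ha, mem_image.2 ⟨b, by simpa [N] using he, rfl⟩⟩
  have h1 := (card_le_card sub).trans (card_biUnion_le_card_mul _ _ (N v).card fun u _ =>
    card_image_le.trans (hv u (mem_univ _)))
  rw [card_univ_sdiff, Fintype.card_fin] at h1
  have h3 : (N v).card ≤ n := by simpa using card_le_univ (N v)
  obtain ⟨d, hd⟩ := Nat.exists_eq_add_of_le h3
  generalize (N v).card = D at *
  have : n - D = d := by omega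
  rw [this] at h1
  have : n ^ 2 = (D + d) ^ 2 := by rw [← hd]
  nlinarith [sq_nonneg ((D : ℤ) - d)]

lemma exF (n : ℕ) (H : Finset (Finset (Fin n))) (h2 : ∀ e ∈ H, e.card = 2)
    (hn : ¬ ∃ φ : Fin 9 ↪ Fin n, ∀ e ∈ FF, e.map φ ∈ H) :
    4 * H.card ≤ n ^ 2 + 24 * n := by
  classical
  have ne : ∀ a b : Fin n, ({a, b} : Finset (Fin n)) ∈ H → a ≠ b := by
    rintro a b h rfl
    simpa using h2 _ h
  by_cases hb : ∀ W : Finset (Fin n), W.card ≤ 6 → ∃ a b c, a ∉ W ∧ b ∉ W ∧ c ∉ W ∧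
      ({a, b} : Finset (Fin n)) ∈ H ∧ ({a, c} : Finset (Fin n)) ∈ H ∧ ({b, c} : Finset (Fin n)) ∈ H
  · exfalso
    have s2 : ∀ l : List (Fin n), l.Nodup → l.length ≤ 6 → ∃ a b c, (a :: b :: c :: l).Nodup ∧
        ({a, b} : Finset (Fin n)) ∈ H ∧ ({a, c} : Finset (Fin n)) ∈ H ∧
        ({b, c} : Finset (Fin n)) ∈ H := by
      intro l hl hn
      obtain ⟨a, b, c, d, e, f, g, h, i⟩ := hb l.toFinset ((List.toFinset_card_le l).trans hn)
      refine ⟨a, b, c, ?_, g, h, i⟩
      simp only [List.mem_toFinset] at d e f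
      simp [ne _ _ g, ne _ _ h, ne _ _ i, d, e, f, hl]
    obtain ⟨x6, x7, x8, n1, r1, r2, r3⟩ := s2 [] List.nodup_nil (by simp)
    obtain ⟨x3, x4, x5, n2, r4, r5, r6⟩ := s2 _ n1 (by simp)
    obtain ⟨x0, x1, x2, n3, r7, r8, r9⟩ := s2 _ n2 (by simp)
    refine hn ⟨⟨fun i => [x0, x1, x2, x3, x4, x5, x6, x7, x8].get i,
      List.nodup_iff_injective_get.1 n3⟩, fun e he => ?_⟩
    obtain ⟨t, ht, rfl⟩ := mem_FF.1 he
    rw [map_insert, map_singleton]
    simp only [tb, List.mem_cons, List.not_mem_nil, or_false] at ht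
    rcases ht with rfl | rfl | rfl | rfl | rfl | rfl | rfl | rfl | rfl
    exacts [r7, r8, r9, r4, r5, r6, r1, r2, r3]
  · push Not at hb
    obtain ⟨W, hW, h⟩ := hb
    have m := mantel n (H.filter fun e => ∀ x ∈ e, x ∉ W) (fun e he => h2 e (mem_filter.1 he).1)
      (fun a b c p q s => by
        simp only [mem_filter, mem_insert, mem_singleton, forall_eq_or_imp, forall_eq] at p q s
        exact h a b c p.2.1 p.2.2 q.2.2 p.1 q.1 s.1)
    have sub : H ⊆ (H.filter fun e => ∀ x ∈ e, x ∉ W) ∪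
        (W ×ˢ univ).image fun x : Fin n × Fin n => ({x.1, x.2} : Finset (Fin n)) := by
      intro e he
      obtain ⟨u, v, huv, rfl⟩ := card_eq_two.1 (h2 e he)
      rw [mem_union]
      by_cases hu : u ∈ W
      · exact Or.inr (mem_image.2 ⟨(u, v), by simpa using hu, rfl⟩)
      by_cases hv : v ∈ W
      · exact Or.inr (mem_image.2 ⟨(v, u), by simpa using hv, pair_comm _ _⟩)
      exact Or.inl (by simp [he, hu, hv])
    have := (card_le_card sub).trans ((card_union_le _ _).trans (Nat.add_le_add_left card_image_le _))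
    simp only [card_product, card_univ, Fintype.card_fin] at this
    nlinarith

def cr (n : ℕ) (e : Finset (Fin n)) : Prop := (∃ a ∈ e, a.val < n / 2) ∧ ∃ b ∈ e, n / 2 ≤ b.val

instance (n : ℕ) : DecidablePred (cr n) := fun e => by unfold cr; infer_instance

lemma cr_tri (n : ℕ) (a b c : Fin n) : ¬ cr n {a, b} ∨ ¬ cr n {a, c} ∨ ¬ cr n {b, c} := by
  simp only [cr, mem_insert, mem_singleton, exists_eq_or_imp, exists_eq_left]
  omega

def BB (n : ℕ) : Finset (Finset (Fin n)) := (powersetCard 2 univ).filter (cr n)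

lemma BB_card (n : ℕ) : ∀ e ∈ BB n, e.card = 2 := fun _ he =>
  (mem_powersetCard.1 (mem_filter.1 he).1).2

lemma BB_tri (n : ℕ) (a b c : Fin n) (p : ({a, b} : Finset (Fin n)) ∈ BB n)
    (q : ({a, c} : Finset (Fin n)) ∈ BB n) : ({b, c} : Finset (Fin n)) ∉ BB n := fun s => by
  rcases cr_tri n a b c with h | h | h
  exacts [h (mem_filter.1 p).2, h (mem_filter.1 q).2, h (mem_filter.1 s).2]

lemma BB_free (n : ℕ) : ¬ ∃ φ : Fin 9 ↪ Fin n, ∀ e ∈ FF, e.map φ ∈ BB n := by
  rintro ⟨φ, h⟩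
  have a := h _ (mem_FF.2 ⟨(0, 1), by decide, rfl⟩)
  have b := h _ (mem_FF.2 ⟨(0, 2), by decide, rfl⟩)
  have c := h _ (mem_FF.2 ⟨(1, 2), by decide, rfl⟩)
  rw [map_insert, map_singleton] at a b c
  exact BB_tri n _ _ _ a b c

lemma BB_ge (n : ℕ) : n / 2 * (n - n / 2) ≤ (BB n).card := by
  have h1 : (univ.filter fun a : Fin n => a.val < n / 2).card = n / 2 := by
    rw [Fin.card_filter_val_lt]; omega
  have h2 : (univ.filter fun a : Fin n => ¬ a.val < n / 2).card = n - n / 2 := by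
    have := card_filter_add_card_filter_not (s := (univ : Finset (Fin n))) fun a => a.val < n / 2
    simp only [card_univ, Fintype.card_fin] at this
    omega
  rw [← h2]
  nth_rewrite 1 [← h1]
  rw [← card_product]
  refine card_le_card_of_injOn (fun x => ({x.1, x.2} : Finset (Fin n))) ?_ ?_
  · rintro ⟨a, b⟩ h
    simp only [coe_product, coe_filter, mem_univ, true_and, Set.mem_prod, Set.mem_ofPred_eq] at h
    have : a ≠ b := by rintro rfl; omega
    simp only [BB, coe_filter, mem_powersetCard, subset_univ, true_and, Set.mem_ofPred_eq]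
    exact ⟨card_pair this, ⟨a, by simp, h.1⟩, b, by simp, by omega⟩
  · rintro ⟨a, b⟩ h ⟨c, d⟩ h' e
    simp only [coe_product, coe_filter, mem_univ, true_and, Set.mem_prod, Set.mem_ofPred_eq] at h h'
    have e1 : a ∈ ({c, d} : Finset (Fin n)) := by
      have : a ∈ ({a, b} : Finset (Fin n)) := by simp
      exact (show ({a, b} : Finset (Fin n)) = {c, d} from e) ▸ this
    have e2 : b ∈ ({c, d} : Finset (Fin n)) := by
      have : b ∈ ({a, b} : Finset (Fin n)) := by simp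
      exact (show ({a, b} : Finset (Fin n)) = {c, d} from e) ▸ this
    simp only [mem_insert, mem_singleton, Fin.ext_iff] at e1 e2
    ext <;> simp only <;> omega

lemma count (n r : ℕ) (hr : 2 ≤ r) :
    r ^ (BB n).card * 2 ^ (n.choose 2 - (BB n).card) ≤
    Nat.card {c : {x // x ∈ powersetCard 2 (univ : Finset (Fin n))} → Fin r //
      ¬ ∃ φ : Fin 9 ↪ Fin n, (∀ e ∈ FF, e.map φ ∈ powersetCard 2 (univ : Finset (Fin n))) ∧
        ∀ e ∈ FF, ∀ f ∈ FF, ∀ x y : {x // x ∈ powersetCard 2 (univ : Finset (Fin n))},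
          x.1 = e.map φ → y.1 = f.map φ → e ≠ f → c x ≠ c y} := by
  classical
  let T : {x // x ∈ powersetCard 2 (univ : Finset (Fin n))} → Finset (Fin r) := fun x =>
    if cr n x.1 then univ else univ.filter fun i => i.val < 2
  have hT : (Fintype.piFinset T).card = r ^ (BB n).card * 2 ^ (n.choose 2 - (BB n).card) := by
    rw [Fintype.card_piFinset]
    have : ∀ x, (T x).card = if cr n x.1 then r else 2 := by
      intro x
      simp only [T]
      split_ifs
      · simp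
      · rw [Fin.card_filter_val_lt]; omega
    simp only [this]
    rw [prod_coe_sort (powersetCard 2 (univ : Finset (Fin n))) fun x => if cr n x then r else 2,
      prod_ite, prod_const, prod_const]
    have := card_filter_add_card_filter_not (s := powersetCard 2 (univ : Finset (Fin n))) (cr n)
    rw [card_powersetCard, card_univ, Fintype.card_fin] at this
    unfold BB
    congr 2
    omega
  rw [← hT, Nat.card_eq_fintype_card, Fintype.card_subtype]
  refine card_le_card fun c hc => ?_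
  rw [mem_filter]
  refine ⟨mem_univ _, ?_⟩
  rintro ⟨φ, h, g⟩
  have k : ∀ s t u : Fin 9, (s, t) ∈ tb → (s, u) ∈ tb → (t, u) ∈ tb →
      ∃ e, ∃ he : e ∈ FF, (∀ x ∈ e, x = s ∨ x = t ∨ x = u) ∧ (c ⟨e.map φ, h e he⟩).val < 2 := by
    intro s t u p q w
    have z : ∀ e, ∀ he : e ∈ FF, ¬ cr n (e.map φ) → (c ⟨e.map φ, h e he⟩).val < 2 := by
      intro e he hn
      have := Fintype.mem_piFinset.1 hc ⟨e.map φ, h e he⟩
      simpa [T, hn] using this
    rcases cr_tri n (φ s) (φ t) (φ u) with a | a | a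
    · exact ⟨_, mem_FF.2 ⟨_, p, rfl⟩, by simp,
        z _ (mem_FF.2 ⟨_, p, rfl⟩) (by rwa [map_insert, map_singleton])⟩
    · exact ⟨_, mem_FF.2 ⟨_, q, rfl⟩, by simp,
        z _ (mem_FF.2 ⟨_, q, rfl⟩) (by rwa [map_insert, map_singleton])⟩
    · exact ⟨_, mem_FF.2 ⟨_, w, rfl⟩, by simp,
        z _ (mem_FF.2 ⟨_, w, rfl⟩) (by rwa [map_insert, map_singleton])⟩
  obtain ⟨e1, a1, b1, c1⟩ := k 0 1 2 (by decide) (by decide) (by decide)
  obtain ⟨e2, a2, b2, c2⟩ := k 3 4 5 (by decide) (by decide) (by decide)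
  obtain ⟨e3, a3, b3, c3⟩ := k 6 7 8 (by decide) (by decide) (by decide)
  have nn : ∀ e ∈ FF, ∃ x, x ∈ e := fun e he => card_pos.1 (by rw [FF_card e he]; omega)
  have n12 : e1 ≠ e2 := by
    rintro rfl
    obtain ⟨x, hx⟩ := nn _ a1
    have := b1 x hx; have := b2 x hx
    simp only [Fin.ext_iff] at *; omega
  have n13 : e1 ≠ e3 := by
    rintro rfl
    obtain ⟨x, hx⟩ := nn _ a1
    have := b1 x hx; have := b3 x hx
    simp only [Fin.ext_iff] at *; omega
  have n23 : e2 ≠ e3 := by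
    rintro rfl
    obtain ⟨x, hx⟩ := nn _ a2
    have := b2 x hx; have := b3 x hx
    simp only [Fin.ext_iff] at *; omega
  have d1 := g e1 a1 e2 a2 ⟨_, h _ a1⟩ ⟨_, h _ a2⟩ rfl rfl n12
  have d2 := g e1 a1 e3 a3 ⟨_, h _ a1⟩ ⟨_, h _ a3⟩ rfl rfl n13
  have d3 := g e2 a2 e3 a3 ⟨_, h _ a2⟩ ⟨_, h _ a3⟩ rfl rfl n23
  simp only [ne_eq, Fin.ext_iff] at d1 d2 d3
  omega

end Pool.Agent.H.MP_ca83f8_co
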